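import Mathlib

set_option autoImplicit false

/-!
Weighted form of signed graphs: `w u v = 1` for a positive edge, `-1` for a negative edge and `0` for
a pair of vertices which is not an edge. `Cfg w`: the graph is subcubic without triangles and
without 4-cycles, and no switching lowers the number of negative edges.
-/

namespace Pool.Agent.H28.Fr

open Finset

set_option linter.unusedSectionVars false

variable {V : Type*} [Fintype V] [DecidableEq V]

structure Cfg (w : V → V → ℤ) : Prop where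
  symm : ∀ u v, w u v = w v u
  irr : ∀ u, w u u = 0
  val : ∀ u v, w u v = 0 ∨ w u v = 1 ∨ w u v = -1
  deg : ∀ u, (univ.filter (fun v => w u v ≠ 0)).card ≤ 3
  tri : ∀ a b c, w a b ≠ 0 → w b c ≠ 0 → w c a = 0
  quad : ∀ a b c d, a ≠ c → b ≠ d → w a b ≠ 0 → w b c ≠ 0 → w c d ≠ 0 → w d a = 0
  max : ∀ s : V → ℤ, (∀ v, s v = 1 ∨ s v = -1) →
    ∑ u, ∑ v, s u * s v * w u v ≤ ∑ u, ∑ v, w u v

/-- sum of the weights at a vertex -/
def W (w : V → V → ℤ) (u : V) : ℤ := ∑ v, w u v

/-- end of a negative edge -/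
def Mv (w : V → V → ℤ) (u : V) : Prop := ∃ v, w u v = -1

def ind (X : Finset V) (v : V) : ℤ := if v ∈ X then -1 else 1

lemma ind_val (X : Finset V) (v : V) : ind X v = 1 ∨ ind X v = -1 := by
  unfold ind; split_ifs <;> simp

lemma sum_ind (w : V → V → ℤ) (hs : ∀ u v, w u v = w v u) (X : Finset V) :
    ∑ u, ∑ v, ind X u * ind X v * w u v =
      ∑ u, ∑ v, w u v - 4 * ∑ u ∈ X, W w u + 4 * ∑ u ∈ X, ∑ v ∈ X, w u v := by
  have h1 : ∀ u v, ind X u * ind X v * w u v =
      w u v - 2 * (if u ∈ X then w u v else 0) - 2 * (if v ∈ X then w u v else 0)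
        + 4 * (if u ∈ X then (if v ∈ X then w u v else 0) else 0) := by
    intro u v
    unfold ind
    split_ifs <;> ring
  simp_rw [h1, Finset.sum_add_distrib, Finset.sum_sub_distrib]
  have h2 : ∑ u, ∑ v, 2 * (if u ∈ X then w u v else 0) = 2 * ∑ u ∈ X, W w u := by
    simp_rw [← Finset.mul_sum]
    congr 1
    rw [← Finset.sum_filter_add_sum_filter_not univ (fun u => u ∈ X)]
    have e1 : ∑ u ∈ univ.filter (fun u => ¬ u ∈ X), ∑ v, (if u ∈ X then w u v else 0) = 0 := by
      apply Finset.sum_eq_zero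
      intro u hu
      simp only [Finset.mem_filter] at hu
      simp [hu.2]
    rw [e1, add_zero]
    have e2 : univ.filter (fun u => u ∈ X) = X := by ext; simp
    rw [e2]
    apply Finset.sum_congr rfl
    intro u hu
    simp [hu, W]
  have h3 : ∑ u, ∑ v, 2 * (if v ∈ X then w u v else 0) = 2 * ∑ u ∈ X, W w u := by
    rw [Finset.sum_comm, ← h2]
    apply Finset.sum_congr rfl
    intro u _
    apply Finset.sum_congr rfl
    intro v _
    rw [hs v u]
  have h4 : ∑ u, ∑ v, 4 * (if u ∈ X then (if v ∈ X then w u v else 0) else 0) =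
      4 * ∑ u ∈ X, ∑ v ∈ X, w u v := by
    simp_rw [← Finset.mul_sum]
    congr 1
    rw [← Finset.sum_filter_add_sum_filter_not univ (fun u => u ∈ X)]
    have e1 : ∑ u ∈ univ.filter (fun u => ¬ u ∈ X), ∑ v,
        (if u ∈ X then (if v ∈ X then w u v else 0) else 0) = 0 := by
      apply Finset.sum_eq_zero
      intro u hu
      simp only [Finset.mem_filter] at hu
      simp [hu.2]
    rw [e1, add_zero]
    have e2 : univ.filter (fun u => u ∈ X) = X := by ext; simp
    rw [e2]
    apply Finset.sum_congr rfl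
    intro u hu
    simp [hu]
  rw [h2, h3, h4]
  ring

variable {w : V → V → ℤ}

lemma Cfg.cut (h : Cfg w) (X : Finset V) :
    ∑ u ∈ X, ∑ v ∈ X, w u v ≤ ∑ u ∈ X, W w u := by
  have h1 := h.max (ind X) (ind_val X)
  rw [sum_ind w h.symm X] at h1
  linarith

lemma Cfg.cut1 (h : Cfg w) (a : V) : 0 ≤ W w a := by
  have := h.cut {a}
  simpa [h.irr] using this

lemma Cfg.cut2 (h : Cfg w) {a b : V} (hab : a ≠ b) : 2 * w a b ≤ W w a + W w b := by
  have := h.cut {a, b}
  rw [Finset.sum_pair hab, Finset.sum_pair hab, Finset.sum_pair hab, Finset.sum_pair hab,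
    h.irr, h.irr, h.symm b a] at this
  linarith

lemma Cfg.cut3 (h : Cfg w) {a b c : V} (hab : a ≠ b) (hac : a ≠ c) (hbc : b ≠ c) :
    2 * (w a b + w a c + w b c) ≤ W w a + W w b + W w c := by
  have := h.cut {a, b, c}
  have e : ∀ f : V → ℤ, ∑ u ∈ ({a, b, c} : Finset V), f u = f a + (f b + f c) := by
    intro f
    rw [Finset.sum_insert (by simp [hab, hac]), Finset.sum_pair hbc]
  simp only [e] at this
  rw [h.irr, h.irr, h.irr, h.symm b a, h.symm c a, h.symm c b] at this
  linarith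

lemma Cfg.cut4 (h : Cfg w) {a b c d : V} (hab : a ≠ b) (hac : a ≠ c) (had : a ≠ d) (hbc : b ≠ c)
    (hbd : b ≠ d) (hcd : c ≠ d) :
    2 * (w a b + w a c + w a d + w b c + w b d + w c d) ≤ W w a + W w b + W w c + W w d := by
  have := h.cut {a, b, c, d}
  have e : ∀ f : V → ℤ, ∑ u ∈ ({a, b, c, d} : Finset V), f u = f a + (f b + (f c + f d)) := by
    intro f
    rw [Finset.sum_insert (by simp [hab, hac, had]), Finset.sum_insert (by simp [hbc, hbd]),
      Finset.sum_pair hcd]
  simp only [e] at this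
  rw [h.irr, h.irr, h.irr, h.irr, h.symm b a, h.symm c a, h.symm c b, h.symm d a, h.symm d b,
    h.symm d c] at this
  linarith

lemma Cfg.cut5 (h : Cfg w) {a b c d e : V} (hab : a ≠ b) (hac : a ≠ c) (had : a ≠ d)
    (hae : a ≠ e) (hbc : b ≠ c) (hbd : b ≠ d) (hbe : b ≠ e) (hcd : c ≠ d) (hce : c ≠ e)
    (hde : d ≠ e) :
    2 * (w a b + w a c + w a d + w a e + w b c + w b d + w b e + w c d + w c e + w d e) ≤
      W w a + W w b + W w c + W w d + W w e := by
  have := h.cut {a, b, c, d, e}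
  have E : ∀ f : V → ℤ, ∑ u ∈ ({a, b, c, d, e} : Finset V), f u =
      f a + (f b + (f c + (f d + f e))) := by
    intro f
    rw [Finset.sum_insert (by simp [hab, hac, had, hae]),
      Finset.sum_insert (by simp [hbc, hbd, hbe]), Finset.sum_insert (by simp [hcd, hce]),
      Finset.sum_pair hde]
  simp only [E] at this
  rw [h.irr, h.irr, h.irr, h.irr, h.irr] at this
  have e1 := h.symm a b
  have e2 := h.symm a c
  have e3 := h.symm a d
  have e4 := h.symm a e
  have e5 := h.symm b c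
  have e6 := h.symm b d
  have e7 := h.symm b e
  have e8 := h.symm c d
  have e9 := h.symm c e
  have e10 := h.symm d e
  linarith

lemma Cfg.W_le (h : Cfg w) (u : V) (S : Finset V) (hS : ∀ v ∈ S, w u v = -1) :
    W w u ≤ 3 - 2 * S.card := by
  have h1 : ∀ v, w u v ≤ (if w u v ≠ 0 then 1 else 0) - 2 * (if v ∈ S then 1 else 0) := by
    intro v
    by_cases hv : v ∈ S
    · rw [hS v hv]; simp [hv]
    · rcases h.val u v with h0 | h0 | h0 <;> rw [h0] <;> simp [hv]
  have h2 : W w u ≤ ∑ v, ((if w u v ≠ 0 then 1 else 0) - 2 * (if v ∈ S then (1 : ℤ) else 0)) :=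
    Finset.sum_le_sum (fun v _ => h1 v)
  rw [Finset.sum_sub_distrib, ← Finset.mul_sum] at h2
  have h3 : ∑ v, (if v ∈ S then (1 : ℤ) else 0) = S.card := by simp
  have h4 : ∑ v, (if w u v ≠ 0 then (1 : ℤ) else 0) =
      ((univ.filter (fun v => w u v ≠ 0)).card : ℤ) := by
    rw [Finset.card_filter]; push_cast; rfl
  rw [h3, h4] at h2
  have h5 : ((univ.filter (fun v => w u v ≠ 0)).card : ℤ) ≤ 3 := by exact_mod_cast h.deg u
  linarith

lemma Cfg.W_le3 (h : Cfg w) (u : V) : W w u ≤ 3 := by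
  have := h.W_le u ∅ (by simp)
  simpa using this

lemma Cfg.W_le1 (h : Cfg w) {u : V} (hu : Mv w u) : W w u ≤ 1 := by
  obtain ⟨v, hv⟩ := hu
  have := h.W_le u {v} (by simpa using hv)
  simp at this
  linarith

lemma Cfg.partner_unique (h : Cfg w) {u p q : V} (hp : w u p = -1) (hq : w u q = -1) :
    p = q := by
  by_contra hpq
  have h1 := h.W_le u {p, q} (by
    intro v hv
    simp only [Finset.mem_insert, Finset.mem_singleton] at hv
    rcases hv with rfl | rfl <;> assumption)
  rw [Finset.card_pair hpq] at h1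
  have h2 := h.cut1 u
  push_cast at h1
  linarith

lemma Cfg.ne_of_adj (h : Cfg w) {u v : V} (huv : w u v ≠ 0) : u ≠ v := by
  rintro rfl
  exact huv (h.irr u)

/-- a vertex with three positive neighbours is not the end of a negative edge -/
lemma Cfg.not_Mv_of_three (h : Cfg w) {u a b c : V} (hab : a ≠ b) (hac : a ≠ c) (hbc : b ≠ c)
    (ha : w u a = 1) (hb : w u b = 1) (hc : w u c = 1) : ¬ Mv w u := by
  rintro ⟨p, hp⟩
  have h1 : ({p, a, b, c} : Finset V) ⊆ univ.filter (fun v => w u v ≠ 0) := by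
    intro v hv
    simp only [Finset.mem_insert, Finset.mem_singleton] at hv
    simp only [Finset.mem_filter, Finset.mem_univ, true_and]
    rcases hv with rfl | rfl | rfl | rfl
    · rw [hp]; norm_num
    · rw [ha]; norm_num
    · rw [hb]; norm_num
    · rw [hc]; norm_num
  have h2 := Finset.card_le_card h1
  have hpa : p ≠ a := by rintro rfl; rw [ha] at hp; norm_num at hp
  have hpb : p ≠ b := by rintro rfl; rw [hb] at hp; norm_num at hp
  have hpc : p ≠ c := by rintro rfl; rw [hc] at hp; norm_num at hp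
  rw [Finset.card_insert_of_notMem (by simp [hpa, hpb, hpc]),
    Finset.card_insert_of_notMem (by simp [hab, hac]), Finset.card_pair hbc] at h2
  have := h.deg u
  omega

/-- Rule 2: an end of a negative edge has at most one positive neighbour of this kind. -/
lemma Cfg.rule2 (h : Cfg w) {u y y' : V} (hu : Mv w u) (hy : Mv w y) (hy' : Mv w y')
    (h1 : w u y = 1) (h2 : w u y' = 1) : y = y' := by
  by_contra hne
  have n1 : u ≠ y := h.ne_of_adj (by rw [h1]; norm_num)
  have n2 : u ≠ y' := h.ne_of_adj (by rw [h2]; norm_num)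
  have e : w y y' = 0 := by
    rw [h.symm]
    by_contra h0
    have := h.tri y' y u (h0) (by rw [h.symm, h1]; norm_num)
    rw [h2] at this; norm_num at this
  have c := h.cut3 n1 n2 hne
  have := h.W_le1 hu
  have := h.W_le1 hy
  have := h.W_le1 hy'
  rw [h1, h2, e] at c
  linarith

/-- Rule 3 for an edge `v u2` between two ends of negative edges. -/
lemma Cfg.rule3N (h : Cfg w) {a v u x y : V} (hv : Mv w v) (hu : Mv w u) (hx : Mv w x)
    (hy : Mv w y) (h1 : w a v = 1) (h2 : w v u = 1) (h3 : w a x = 1) (h4 : w a y = 1)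
    (hvx : v ≠ x) (hvy : v ≠ y) (hxy : x ≠ y) : False := by
  have hna := h.not_Mv_of_three hvx hvy hxy h1 h3 h4
  have nav : a ≠ v := h.ne_of_adj (by rw [h1]; norm_num)
  have nax : a ≠ x := h.ne_of_adj (by rw [h3]; norm_num)
  have nay : a ≠ y := h.ne_of_adj (by rw [h4]; norm_num)
  have nvu : v ≠ u := h.ne_of_adj (by rw [h2]; norm_num)
  have nau : a ≠ u := by rintro rfl; exact hna hu
  have eau : w a u = 0 := by
    rw [h.symm]; exact h.tri a v u (by rw [h1]; norm_num) (by rw [h2]; norm_num)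
  have nux : u ≠ x := by rintro rfl; rw [h3] at eau; norm_num at eau
  have nuy : u ≠ y := by rintro rfl; rw [h4] at eau; norm_num at eau
  have evx : w v x = 0 := h.tri x a v (by rw [h.symm, h3]; norm_num) (by rw [h1]; norm_num)
  have evy : w v y = 0 := h.tri y a v (by rw [h.symm, h4]; norm_num) (by rw [h1]; norm_num)
  have exy : w x y = 0 := h.tri y a x (by rw [h.symm, h4]; norm_num) (by rw [h3]; norm_num)
  have eux : w u x = 0 := h.quad x a v u hvx.symm nau (by rw [h.symm, h3]; norm_num)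
    (by rw [h1]; norm_num) (by rw [h2]; norm_num)
  have euy : w u y = 0 := h.quad y a v u hvy.symm nau (by rw [h.symm, h4]; norm_num)
    (by rw [h1]; norm_num) (by rw [h2]; norm_num)
  have c := h.cut5 nav nau nax nay nvu hvx hvy nux nuy hxy
  have := h.W_le3 a
  have := h.W_le1 hv
  have := h.W_le1 hu
  have := h.W_le1 hx
  have := h.W_le1 hy
  rw [h1, h2, h3, h4, eau, evx, evy, exy, eux, euy] at c
  linarith

/-- Rule 3 for an end `v` of a negative edge with weight sum zero (degree two). -/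
lemma Cfg.rule3W (h : Cfg w) {a v x y : V} (hv : W w v ≤ 0) (hx : Mv w x)
    (hy : Mv w y) (h1 : w a v = 1) (h3 : w a x = 1) (h4 : w a y = 1)
    (hvx : v ≠ x) (hvy : v ≠ y) (hxy : x ≠ y) : False := by
  have nav : a ≠ v := h.ne_of_adj (by rw [h1]; norm_num)
  have nax : a ≠ x := h.ne_of_adj (by rw [h3]; norm_num)
  have nay : a ≠ y := h.ne_of_adj (by rw [h4]; norm_num)
  have evx : w v x = 0 := h.tri x a v (by rw [h.symm, h3]; norm_num) (by rw [h1]; norm_num)
  have evy : w v y = 0 := h.tri y a v (by rw [h.symm, h4]; norm_num) (by rw [h1]; norm_num)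
  have exy : w x y = 0 := h.tri y a x (by rw [h.symm, h4]; norm_num) (by rw [h3]; norm_num)
  have c := h.cut4 nav nax nay hvx hvy hxy
  have := h.W_le3 a
  have := h.W_le1 hx
  have := h.W_le1 hy
  rw [h1, h3, h4, evx, evy, exy] at c
  linarith

/-- Rule 4, both special neighbours of edge type. -/
lemma Cfg.rule4NN (h : Cfg w) {a v u x z : V} (hv : Mv w v) (hu : Mv w u) (hx : Mv w x)
    (hz : Mv w z) (h1 : w a v = 1) (h2 : w v u = 1) (h3 : w a x = 1) (h4 : w x z = 1)
    (hvx : v ≠ x) (nau : a ≠ u) (naz : a ≠ z) : w u z = -1 := by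
  have nav : a ≠ v := h.ne_of_adj (by rw [h1]; norm_num)
  have nax : a ≠ x := h.ne_of_adj (by rw [h3]; norm_num)
  have nvu : v ≠ u := h.ne_of_adj (by rw [h2]; norm_num)
  have nxz : x ≠ z := h.ne_of_adj (by rw [h4]; norm_num)
  have eau : w a u = 0 := by
    rw [h.symm]; exact h.tri a v u (by rw [h1]; norm_num) (by rw [h2]; norm_num)
  have eaz : w a z = 0 := by
    rw [h.symm]; exact h.tri a x z (by rw [h3]; norm_num) (by rw [h4]; norm_num)
  have nux : u ≠ x := by rintro rfl; rw [h3] at eau; norm_num at eau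
  have nvz : v ≠ z := by rintro rfl; rw [h1] at eaz; norm_num at eaz
  have nuz : u ≠ z := by
    rintro rfl
    exact hvx (h.rule2 hu hv hx (by rw [h.symm, h2]) (by rw [h.symm, h4]))
  have evx : w v x = 0 := h.tri x a v (by rw [h.symm, h3]; norm_num) (by rw [h1]; norm_num)
  have eux : w u x = 0 := h.quad x a v u hvx.symm nau (by rw [h.symm, h3]; norm_num)
    (by rw [h1]; norm_num) (by rw [h2]; norm_num)
  have evz : w v z = 0 := by
    rw [h.symm]
    exact h.quad v a x z hvx naz (by rw [h.symm, h1]; norm_num)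
      (by rw [h3]; norm_num) (by rw [h4]; norm_num)
  have c := h.cut5 nav nau nax naz nvu hvx nvz nux nuz nxz
  have := h.W_le3 a
  have := h.W_le1 hv
  have := h.W_le1 hu
  have := h.W_le1 hx
  have := h.W_le1 hz
  rw [h1, h2, h3, h4, eau, eaz, evx, eux, evz] at c
  rcases h.val u z with h0 | h0 | h0
  · rw [h0] at c; linarith
  · rw [h0] at c; linarith
  · exact h0

/-- Rule 4, one special neighbour of edge type and one of degree two. -/
lemma Cfg.rule4NW (h : Cfg w) {a v u x : V} (hv : Mv w v) (hu : Mv w u) (hx : W w x ≤ 0)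
    (h1 : w a v = 1) (h2 : w v u = 1) (h3 : w a x = 1)
    (hvx : v ≠ x) (nau : a ≠ u) : False := by
  have nav : a ≠ v := h.ne_of_adj (by rw [h1]; norm_num)
  have nax : a ≠ x := h.ne_of_adj (by rw [h3]; norm_num)
  have nvu : v ≠ u := h.ne_of_adj (by rw [h2]; norm_num)
  have eau : w a u = 0 := by
    rw [h.symm]; exact h.tri a v u (by rw [h1]; norm_num) (by rw [h2]; norm_num)
  have nux : u ≠ x := by rintro rfl; rw [h3] at eau; norm_num at eau
  have evx : w v x = 0 := h.tri x a v (by rw [h.symm, h3]; norm_num) (by rw [h1]; norm_num)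
  have eux : w u x = 0 := h.quad x a v u hvx.symm nau (by rw [h.symm, h3]; norm_num)
    (by rw [h1]; norm_num) (by rw [h2]; norm_num)
  have c := h.cut4 nav nau nax nvu hvx nux
  have := h.W_le3 a
  have := h.W_le1 hv
  have := h.W_le1 hu
  rw [h1, h2, h3, eau, evx, eux] at c
  linarith

/-- Rule 4, both special neighbours of degree two. -/
lemma Cfg.rule4WW (h : Cfg w) {a v x : V} (hv : W w v ≤ 0) (hx : W w x ≤ 0)
    (h1 : w a v = 1) (h3 : w a x = 1) (hvx : v ≠ x) : False := by
  have nav : a ≠ v := h.ne_of_adj (by rw [h1]; norm_num)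
  have nax : a ≠ x := h.ne_of_adj (by rw [h3]; norm_num)
  have evx : w v x = 0 := h.tri x a v (by rw [h.symm, h3]; norm_num) (by rw [h1]; norm_num)
  have c := h.cut3 nav nax hvx
  have := h.W_le3 a
  rw [h1, h3, evx] at c
  linarith

/-- special vertices -/
def Sp (w : V → V → ℤ) (u : V) : Prop :=
  Mv w u ∧ ((∃ v, Mv w v ∧ w u v = 1) ∨ W w u ≤ 0)

lemma Cfg.rule3 (h : Cfg w) {a v x y : V} (hv : Sp w v) (hx : Mv w x) (hy : Mv w y)
    (h1 : w a v = 1) (h3 : w a x = 1) (h4 : w a y = 1)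
    (hvx : v ≠ x) (hvy : v ≠ y) (hxy : x ≠ y) : False := by
  obtain ⟨hm, ⟨u, hu, hvu⟩ | h0⟩ := hv
  · exact h.rule3N hm hu hx hy h1 hvu h3 h4 hvx hvy hxy
  · exact h.rule3W h0 hx hy h1 h3 h4 hvx hvy hxy

lemma Cfg.rule4 (h : Cfg w) {a v x : V} (ha : ¬ Mv w a) (hv : Sp w v) (hx : Sp w x)
    (h1 : w a v = 1) (h3 : w a x = 1) (hvx : v ≠ x) :
    ∃ u z, Mv w u ∧ Mv w z ∧ w v u = 1 ∧ w x z = 1 ∧ w u z = -1 := by
  obtain ⟨hm, ⟨u, hu, hvu⟩ | h0⟩ := hv
  · obtain ⟨hm', ⟨z, hz, hxz⟩ | h0'⟩ := hx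
    · exact ⟨u, z, hu, hz, hvu, hxz, h.rule4NN hm hu hm' hz h1 hvu h3 hxz hvx
        (by rintro rfl; exact ha hu) (by rintro rfl; exact ha hz)⟩
    · exact (h.rule4NW hm hu h0' h1 hvu h3 hvx (by rintro rfl; exact ha hu)).elim
  · obtain ⟨hm', ⟨z, hz, hxz⟩ | h0'⟩ := hx
    · exact (h.rule4NW hm' hz h0 h3 hxz h1 hvx.symm (by rintro rfl; exact ha hz)).elim
    · exact (h.rule4WW h0 h0' h1 h3 hvx).elim

end Pool.Agent.H28.Fr
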