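import Pool.Agent.H28.FrA

set_option autoImplicit false

/-!
Switching of a pair `{v, u}` joined by a positive edge, both ends of negative edges; bad vertices.
-/

namespace Pool.Agent.H28.Fr

open Finset

set_option linter.unusedSectionVars false

variable {V : Type*} [Fintype V] [DecidableEq V] {w : V → V → ℤ}

/-- switching at the pair `{v, u}` -/
def flp (w : V → V → ℤ) (v u : V) (p q : V) : ℤ :=
  ind {v, u} p * ind {v, u} q * w p q

lemma ind_of_notMem {v u p : V} (h1 : p ≠ v) (h2 : p ≠ u) : ind {v, u} p = 1 := by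
  unfold ind; simp [h1, h2]

lemma ind_left {v u : V} : ind {v, u} v = -1 := by
  unfold ind; simp

lemma ind_right {v u : V} : ind {v, u} u = -1 := by
  unfold ind; simp

lemma ind_mul_ne (X : Finset V) (p q : V) (x : ℤ) : ind X p * ind X q * x ≠ 0 ↔ x ≠ 0 := by
  rcases ind_val X p with h | h <;> rcases ind_val X q with h' | h' <;> rw [h, h'] <;> simp

lemma Cfg.flipC (h : Cfg w) {v u : V} (hv : Mv w v) (hu : Mv w u) (h1 : w v u = 1) :
    Cfg (flp w v u) := by
  have nvu : v ≠ u := h.ne_of_adj (by rw [h1]; norm_num)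
  have hne : ∀ p q, flp w v u p q ≠ 0 ↔ w p q ≠ 0 := fun p q => ind_mul_ne _ _ _ _
  have hz : ∀ p q, flp w v u p q = 0 ↔ w p q = 0 := fun p q => by
    have := hne p q; tauto
  have hT : ∑ p, ∑ q, flp w v u p q = ∑ p, ∑ q, w p q := by
    have e := sum_ind w h.symm {v, u}
    have e1 : ∑ p ∈ ({v, u} : Finset V), W w p = W w v + W w u := Finset.sum_pair nvu
    have e2 : ∑ p ∈ ({v, u} : Finset V), ∑ q ∈ ({v, u} : Finset V), w p q = 2 := by
      rw [Finset.sum_pair nvu, Finset.sum_pair nvu, Finset.sum_pair nvu, h.irr, h.irr,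
        h.symm u v, h1]
      norm_num
    have e3 := h.cut2 nvu
    have e4 := h.W_le1 hv
    have e5 := h.W_le1 hu
    rw [h1] at e3
    have e6 : W w v + W w u = 2 := by linarith
    rw [e1, e2, e6] at e
    have : ∑ p, ∑ q, flp w v u p q = ∑ p, ∑ q, ind {v, u} p * ind {v, u} q * w p q := rfl
    rw [this, e]
    ring
  refine ⟨?_, ?_, ?_, ?_, ?_, ?_, ?_⟩
  · intro p q
    unfold flp
    rw [h.symm p q]
    ring
  · intro p
    rw [hz]
    exact h.irr p
  · intro p q
    unfold flp
    rcases ind_val {v, u} p with h2 | h2 <;> rcases ind_val {v, u} q with h3 | h3 <;>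
      rcases h.val p q with h4 | h4 | h4 <;> rw [h2, h3, h4] <;> simp
  · intro p
    have : (univ.filter (fun q => flp w v u p q ≠ 0)) = univ.filter (fun q => w p q ≠ 0) := by
      ext q
      simp only [Finset.mem_filter, Finset.mem_univ, true_and]
      exact hne p q
    rw [this]
    exact h.deg p
  · intro a b c hab hbc
    rw [hz]
    exact h.tri a b c ((hne _ _).1 hab) ((hne _ _).1 hbc)
  · intro a b c d hac hbd hab hbc hcd
    rw [hz]
    exact h.quad a b c d hac hbd ((hne _ _).1 hab) ((hne _ _).1 hbc) ((hne _ _).1 hcd)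
  · intro s hs
    rw [hT]
    have h2 := h.max (fun p => s p * ind {v, u} p) (by
      intro p
      rcases hs p with h3 | h3 <;> rcases ind_val {v, u} p with h4 | h4 <;>
        simp only [h3, h4] <;> norm_num)
    refine le_trans (le_of_eq ?_) h2
    apply Finset.sum_congr rfl
    intro p _
    apply Finset.sum_congr rfl
    intro q _
    unfold flp
    ring

/-- A bad vertex with its pentagon `a v u z x` and its third neighbour `a'`. -/
structure Bad (w : V → V → ℤ) (a v u x z a' : V) : Prop where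
  ha : ¬ Mv w a
  hv : Mv w v
  hu : Mv w u
  hx : Mv w x
  hz : Mv w z
  av : w a v = 1
  ax : w a x = 1
  vu : w v u = 1
  xz : w x z = 1
  uz : w u z = -1
  vx : v ≠ x
  aa : w a a' = 1
  ha' : ¬ Mv w a'

/-- The third neighbour of a bad vertex in the configuration after switching. -/
structure After (w : V → V → ℤ) (a v u x z a' : V) : Prop where
  cfg : Cfg (flp w v u)
  na' : ¬ Mv (flp w v u) a'
  ma : Mv (flp w v u) a
  mx : Mv (flp w v u) x
  ax : flp w v u a x = 1
  aa : flp w v u a' a = 1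

lemma pos_of_not_Mv (h : Cfg w) {a b : V} (ha : ¬ Mv w a) (hab : w a b ≠ 0) : w a b = 1 := by
  rcases h.val a b with h0 | h0 | h0
  · exact (hab h0).elim
  · exact h0
  · exact (ha ⟨b, h0⟩).elim

section
variable {a v u x z a' : V} (h : Cfg w) (b : Bad w a v u x z a')
include h b

lemma Bad.basic : a ≠ v ∧ a ≠ u ∧ a ≠ x ∧ a ≠ z ∧ a' ≠ v ∧ a' ≠ u ∧ a' ≠ x ∧ a' ≠ z ∧ v ≠ u ∧
    x ≠ z ∧ x ≠ u ∧ x ≠ v ∧ w a' v = 0 ∧ w a' u = 0 ∧ w a' x = 0 ∧ w a' z = 0 := by
  obtain ⟨ha, hv, hu, hx, hz, av, ax, vu, xz, uz, vx, aa, ha'⟩ := b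
  have n1 : a ≠ u := by rintro rfl; exact ha hu
  have n2 : a ≠ z := by rintro rfl; exact ha hz
  have n3 : a' ≠ v := by rintro rfl; exact ha' hv
  have n4 : a' ≠ u := by rintro rfl; exact ha' hu
  have n5 : a' ≠ x := by rintro rfl; exact ha' hx
  have n6 : a' ≠ z := by rintro rfl; exact ha' hz
  have aa' : w a' a ≠ 0 := by rw [h.symm, aa]; norm_num
  have av' : w a v ≠ 0 := by rw [av]; norm_num
  have ax' : w a x ≠ 0 := by rw [ax]; norm_num
  have vu' : w v u ≠ 0 := by rw [vu]; norm_num
  have xz' : w x z ≠ 0 := by rw [xz]; norm_num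
  refine ⟨h.ne_of_adj av', n1, h.ne_of_adj ax', n2, n3, n4, n5, n6, h.ne_of_adj vu',
    h.ne_of_adj xz', ?_, vx.symm, ?_, ?_, ?_, ?_⟩
  · rintro rfl
    rw [xz] at uz; norm_num at uz
  · rw [h.symm]; exact h.tri a' a v aa' av'
  · rw [h.symm]; exact h.quad a' a v u n3 n1 aa' av' vu'
  · rw [h.symm]; exact h.tri a' a x aa' ax'
  · rw [h.symm]; exact h.quad a' a x z n5 n2 aa' ax' xz'

lemma Bad.after : After w a v u x z a' := by
  obtain ⟨nav, nau, nax, naz, nbv, nbu, nbx, nbz, nvu, nxz, nxu, nxv, ebv, ebu, ebx, ebz⟩ :=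
    b.basic h
  refine ⟨h.flipC b.hv b.hu b.vu, ?_, ?_, ?_, ?_, ?_⟩
  · rintro ⟨y, hy⟩
    unfold flp at hy
    rw [ind_of_notMem nbv nbu] at hy
    by_cases hyv : y = v
    · rw [hyv, ebv] at hy; norm_num at hy
    by_cases hyu : y = u
    · rw [hyu, ebu] at hy; norm_num at hy
    rw [ind_of_notMem hyv hyu] at hy
    exact b.ha' ⟨y, by linarith⟩
  · refine ⟨v, ?_⟩
    unfold flp
    rw [ind_of_notMem nav nau, ind_left, b.av]
    norm_num
  · obtain ⟨y, hy⟩ := b.hx
    refine ⟨y, ?_⟩
    have hyv : y ≠ v := by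
      rintro rfl
      have := h.tri a x y (by rw [b.ax]; norm_num) (by rw [hy]; norm_num)
      rw [h.symm, b.av] at this; norm_num at this
    have hyu : y ≠ u := by
      rintro rfl
      have := h.partner_unique b.uz (by rw [h.symm, hy])
      exact nxz this.symm
    unfold flp
    rw [ind_of_notMem nxv nxu, ind_of_notMem hyv hyu, hy]
    norm_num
  · unfold flp
    rw [ind_of_notMem nav nau, ind_of_notMem nxv nxu, b.ax]
    norm_num
  · unfold flp
    rw [ind_of_notMem nav nau, ind_of_notMem nbv nbu, h.symm, b.aa]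
    norm_num

/-- Neighbours `p` of `a'` which are ends of negative edges stay such after the switching. -/
lemma Bad.after_nbr {p : V} (hp : Mv w p) (hap : w a' p = 1) :
    p ≠ v ∧ p ≠ u ∧ p ≠ a ∧ Mv (flp w v u) p ∧ flp w v u a' p = 1 := by
  obtain ⟨nav, nau, nax, naz, nbv, nbu, nbx, nbz, nvu, nxz, nxu, nxv, ebv, ebu, ebx, ebz⟩ :=
    b.basic h
  have hpv : p ≠ v := by rintro rfl; rw [ebv] at hap; norm_num at hap
  have hpu : p ≠ u := by rintro rfl; rw [ebu] at hap; norm_num at hap
  have hpz : p ≠ z := by rintro rfl; rw [ebz] at hap; norm_num at hap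
  have hpa : p ≠ a := by rintro rfl; exact b.ha hp
  refine ⟨hpv, hpu, hpa, ?_, ?_⟩
  · obtain ⟨y, hy⟩ := hp
    refine ⟨y, ?_⟩
    have hyv : y ≠ v := by
      rintro rfl
      have := h.quad a' p y a nbv hpa (by rw [hap]; norm_num) (by rw [hy]; norm_num)
        (by rw [h.symm, b.av]; norm_num)
      rw [b.aa] at this; norm_num at this
    have hyu : y ≠ u := by
      rintro rfl
      exact hpz (h.partner_unique (by rw [h.symm, hy]) b.uz)
    unfold flp
    rw [ind_of_notMem hpv hpu, ind_of_notMem hyv hyu, hy]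
    norm_num
  · unfold flp
    rw [ind_of_notMem nbv nbu, ind_of_notMem hpv hpu, hap]
    norm_num

/-- The third neighbour of a bad vertex has at most one neighbour which is an end of a negative
edge. -/
lemma Bad.third {p q : V} (hp : Mv w p) (hq : Mv w q) (hap : w a' p = 1) (haq : w a' q = 1) :
    p = q := by
  by_contra hpq
  obtain ⟨hpv, hpu, hpa, mp, ep⟩ := b.after_nbr h hp hap
  obtain ⟨hqv, hqu, hqa, mq, eq⟩ := b.after_nbr h hq haq
  obtain ⟨cfg, na', ma, mx, ax, aa⟩ := b.after h
  exact cfg.rule3N ma mx mp mq aa ax ep eq hpa.symm hqa.symm hpq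

/-- The special neighbour of the third neighbour of a bad vertex. -/
lemma Bad.special {p : V} (hp : Sp w p) (hap : w a' p = 1) :
    ∃ y r, w a y = 1 ∧ Mv w y ∧ Mv w r ∧ w p r = 1 ∧ w r y = -1 := by
  obtain ⟨nav, nau, nax, naz, nbv, nbu, nbx, nbz, nvu, nxz, nxu, nxv, ebv, ebu, ebx, ebz⟩ :=
    b.basic h
  obtain ⟨hpv, hpu, hpa, mp, ep⟩ := b.after_nbr h hp.1 hap
  obtain ⟨cfg, na', ma, mx, ax, aa⟩ := b.after h
  have hpz : p ≠ z := by rintro rfl; rw [ebz] at hap; norm_num at hap
  have hwpv : w p v = 0 := by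
    by_contra h0
    have := h.quad a' p v a nbv hpa (by rw [hap]; norm_num) h0
      (by rw [h.symm, b.av]; norm_num)
    rw [b.aa] at this; norm_num at this
  have hwpu : w p u = 0 := by
    rcases h.val p u with h0 | h0 | h0
    · exact h0
    · exact (hpv.symm (h.rule2 b.hu b.hv hp.1 (by rw [h.symm, b.vu]) (by rw [h.symm, h0]))).elim
    · exact (hpz (h.partner_unique (by rw [h.symm, h0]) b.uz)).elim
  obtain ⟨hm, ⟨r, hr, hpr⟩ | h0⟩ := hp
  · by_cases hrv : w r v = -1
    · exact ⟨v, r, b.av, b.hv, hr, hpr, hrv⟩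
    have hr1 : r ≠ v := by rintro rfl; rw [hwpv] at hpr; norm_num at hpr
    have hr2 : r ≠ u := by rintro rfl; rw [hwpu] at hpr; norm_num at hpr
    have mr : Mv (flp w v u) r := by
      obtain ⟨y, hy⟩ := hr
      refine ⟨y, ?_⟩
      have hyv : y ≠ v := by rintro rfl; exact hrv hy
      have hyu : y ≠ u := by
        rintro rfl
        have hrz : r = z := h.partner_unique (by rw [h.symm, hy]) b.uz
        subst hrz
        have hpx : p = x := h.rule2 b.hz hm b.hx (by rw [h.symm, hpr]) (by rw [h.symm, b.xz])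
        rw [hpx, ebx] at hap; norm_num at hap
      unfold flp
      rw [ind_of_notMem hr1 hr2, ind_of_notMem hyv hyu, hy]
      norm_num
    have epr : flp w v u p r = 1 := by
      unfold flp
      rw [ind_of_notMem hpv hpu, ind_of_notMem hr1 hr2, hpr]
      norm_num
    have key := cfg.rule4NN ma mx mp mr aa ax ep epr hpa.symm nbx
      (by rintro rfl; exact b.ha' hr)
    unfold flp at key
    rw [ind_of_notMem nxv nxu, ind_of_notMem hr1 hr2] at key
    exact ⟨x, r, b.ax, b.hx, hr, hpr, by rw [h.symm]; linarith⟩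
  · exfalso
    have hW : W (flp w v u) p ≤ 0 := by
      have : W (flp w v u) p = W w p := by
        unfold W
        apply Finset.sum_congr rfl
        intro y _
        unfold flp
        rw [ind_of_notMem hpv hpu]
        by_cases hyv : y = v
        · rw [hyv, hwpv]; ring
        by_cases hyu : y = u
        · rw [hyu, hwpu]; ring
        rw [ind_of_notMem hyv hyu]
        ring
      rw [this]; exact h0
    exact cfg.rule4NW ma mx hW aa ax ep hpa.symm nbx

end

/-- At most one bad neighbour if there is a special neighbour. -/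
lemma Cfg.one_bad (h : Cfg w) {a v u x z b v' u' x' z' c p : V} (B1 : Bad w a v u x z c)
    (B2 : Bad w b v' u' x' z' c) (hp : Sp w p) (hcp : w c p = 1) : a = b := by
  by_contra hab
  obtain ⟨y, r, hay, my, mr, hpr, hry⟩ := B1.special h hp hcp
  obtain ⟨y', r', hby, my', mr', hpr', hry'⟩ := B2.special h hp hcp
  have e1 : r = r' := h.rule2 hp.1 mr mr' hpr hpr'
  subst e1
  have e2 : y = y' := h.partner_unique hry hry'
  subst e2
  have hyc : y ≠ c := by rintro rfl; exact B1.ha' my
  have := h.quad a y b c hab hyc (by rw [hay]; norm_num) (by rw [h.symm, hby]; norm_num)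
    (by rw [B2.aa]; norm_num)
  rw [h.symm, B1.aa] at this
  norm_num at this

end Pool.Agent.H28.Fr
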