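import Pool.Agent.H28.FrB

set_option autoImplicit false

/-!
The count: at most three fifths of the vertices are ends of negative edges.
-/

namespace Pool.Agent.H28.Fr

open Finset Classical

set_option linter.unusedSectionVars false

variable {V : Type*} [Fintype V] [DecidableEq V]

noncomputable def MVs (w : V → V → ℤ) : Finset V := univ.filter (fun u => Mv w u)
noncomputable def SPs (w : V → V → ℤ) : Finset V := univ.filter (fun u => Sp w u)
noncomputable def Zs (w : V → V → ℤ) : Finset V := univ.filter (fun u => ¬ Mv w u)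
noncomputable def Bs (w : V → V → ℤ) : Finset V := univ.filter (fun u => ¬ Mv w u ∧
  ∃ v x, v ≠ x ∧ Sp w v ∧ Sp w x ∧ w u v = 1 ∧ w u x = 1)

/-- neighbours of `z` in `S` -/
noncomputable def nb (w : V → V → ℤ) (S : Finset V) (z : V) : Finset V :=
  S.filter (fun m => w z m ≠ 0)

variable {w : V → V → ℤ}

lemma mem_nb {S : Finset V} {z m : V} : m ∈ nb w S z ↔ m ∈ S ∧ w z m ≠ 0 := by
  simp [nb]

lemma Cfg.W_eq (h : Cfg w) (u : V) : W w u =
    ((univ.filter (fun v => w u v = 1)).card : ℤ) - (univ.filter (fun v => w u v = -1)).card := by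
  unfold W
  rw [Finset.card_filter, Finset.card_filter]
  push_cast
  rw [← Finset.sum_sub_distrib]
  apply Finset.sum_congr rfl
  intro v _
  rcases h.val u v with h0 | h0 | h0 <;> rw [h0] <;> simp

lemma Cfg.pos_card (h : Cfg w) (u : V) :
    W w u ≤ ((univ.filter (fun v => w u v = 1)).card : ℤ) := by
  rw [h.W_eq u]
  have : (0 : ℤ) ≤ ((univ.filter (fun v => w u v = -1)).card : ℤ) := Int.natCast_nonneg _
  linarith

lemma Cfg.pos_card_Mv (h : Cfg w) {u : V} (hu : Mv w u) :
    W w u + 1 ≤ ((univ.filter (fun v => w u v = 1)).card : ℤ) := by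
  rw [h.W_eq u]
  obtain ⟨v, hv⟩ := hu
  have : 1 ≤ (univ.filter (fun v => w u v = -1)).card :=
    Finset.card_pos.2 ⟨v, by simp [hv]⟩
  have : (1 : ℤ) ≤ ((univ.filter (fun v => w u v = -1)).card : ℤ) := by exact_mod_cast this
  linarith

/-- bad vertices have a third neighbour -/
lemma Cfg.bad_third (h : Cfg w) {a : V} (ha : a ∈ Bs w) :
    ∃ y, y ∈ nb w (Zs w) a := by
  simp only [Bs, Finset.mem_filter, Finset.mem_univ, true_and] at ha
  obtain ⟨ha, v, x, hvx, hv, hx, hav, hax⟩ := ha
  obtain ⟨u, z, hu, hz, hvu, hxz, huz⟩ := h.rule4 ha hv hx hav hax hvx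
  have nau : a ≠ u := by rintro rfl; exact ha hu
  have nav : a ≠ v := h.ne_of_adj (by rw [hav]; norm_num)
  have nax : a ≠ x := h.ne_of_adj (by rw [hax]; norm_num)
  have nvu : v ≠ u := h.ne_of_adj (by rw [hvu]; norm_num)
  have eau : w a u = 0 := by
    rw [h.symm]; exact h.tri a v u (by rw [hav]; norm_num) (by rw [hvu]; norm_num)
  have nux : u ≠ x := by rintro rfl; rw [hax] at eau; norm_num at eau
  have evx : w v x = 0 := h.tri x a v (by rw [h.symm, hax]; norm_num) (by rw [hav]; norm_num)
  have eux : w u x = 0 := h.quad x a v u hvx.symm nau (by rw [h.symm, hax]; norm_num)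
    (by rw [hav]; norm_num) (by rw [hvu]; norm_num)
  have c := h.cut4 nav nau nax nvu hvx nux
  have e1 := h.W_le1 hv.1
  have e2 := h.W_le1 hu
  have e3 := h.W_le1 hx.1
  rw [hav, hvu, hax, eau, evx, eux] at c
  have e4 := h.pos_card a
  have e5 : 3 ≤ (univ.filter (fun v => w a v = 1)).card := by
    have : (3 : ℤ) ≤ ((univ.filter (fun v => w a v = 1)).card : ℤ) := by linarith
    exact_mod_cast this
  have e6 : ∃ y ∈ univ.filter (fun v => w a v = 1), y ∉ ({v, x} : Finset V) := by
    by_contra hcon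
    push Not at hcon
    have : univ.filter (fun v => w a v = 1) ⊆ ({v, x} : Finset V) := fun y hy => hcon y hy
    have := Finset.card_le_card this
    rw [Finset.card_pair hvx] at this
    omega
  obtain ⟨y, hy, hyn⟩ := e6
  simp only [Finset.mem_filter, Finset.mem_univ, true_and] at hy
  simp only [Finset.mem_insert, Finset.mem_singleton, not_or] at hyn
  refine ⟨y, mem_nb.2 ⟨?_, by rw [hy]; norm_num⟩⟩
  simp only [Zs, Finset.mem_filter, Finset.mem_univ, true_and]
  intro hmy
  exact h.rule3 hv hx.1 hmy hav hax hy hvx (Ne.symm hyn.1) (Ne.symm hyn.2)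

/-- a bad vertex `a` with any neighbour `c` which is not the end of a negative edge -/
lemma Cfg.bad_of (h : Cfg w) {a c : V} (ha : a ∈ Bs w) (hc : ¬ Mv w c) (hac : w c a ≠ 0) :
    ∃ v u x z, Bad w a v u x z c := by
  simp only [Bs, Finset.mem_filter, Finset.mem_univ, true_and] at ha
  obtain ⟨ha, v, x, hvx, hv, hx, hav, hax⟩ := ha
  obtain ⟨u, z, hu, hz, hvu, hxz, huz⟩ := h.rule4 ha hv hx hav hax hvx
  exact ⟨v, u, x, z, ha, hv.1, hu, hx.1, hz, hav, hax, hvu, hxz, huz, hvx,
    pos_of_not_Mv h ha (by rw [h.symm]; exact hac), hc⟩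

lemma Cfg.special_Z (h : Cfg w) {m : V} (hm : Mv w m) : 1 ≤ (nb w (Zs w) m).card := by
  apply Finset.card_pos.2
  by_cases hN : ∃ v, Mv w v ∧ w m v = 1
  · obtain ⟨v, hv, hmv⟩ := hN
    have nmv : m ≠ v := h.ne_of_adj (by rw [hmv]; norm_num)
    have c := h.cut2 nmv
    rw [hmv] at c
    have e1 := h.W_le1 hv
    have e2 := h.pos_card_Mv hm
    have e3 : 2 ≤ (univ.filter (fun v => w m v = 1)).card := by
      have : (2 : ℤ) ≤ ((univ.filter (fun v => w m v = 1)).card : ℤ) := by linarith
      exact_mod_cast this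
    obtain ⟨y, hy, hyv⟩ := Finset.exists_mem_ne (by omega : 1 <
      (univ.filter (fun v => w m v = 1)).card) v
    simp only [Finset.mem_filter, Finset.mem_univ, true_and] at hy
    refine ⟨y, mem_nb.2 ⟨?_, by rw [hy]; norm_num⟩⟩
    simp only [Zs, Finset.mem_filter, Finset.mem_univ, true_and]
    intro hmy
    exact hyv (h.rule2 hm hmy hv hy hmv)
  · have e1 := h.cut1 m
    have e2 := h.pos_card_Mv hm
    have e3 : 0 < (univ.filter (fun v => w m v = 1)).card := by
      have : (0 : ℤ) < ((univ.filter (fun v => w m v = 1)).card : ℤ) := by linarith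
      exact_mod_cast this
    obtain ⟨y, hy⟩ := Finset.card_pos.1 e3
    simp only [Finset.mem_filter, Finset.mem_univ, true_and] at hy
    refine ⟨y, mem_nb.2 ⟨?_, by rw [hy]; norm_num⟩⟩
    simp only [Zs, Finset.mem_filter, Finset.mem_univ, true_and]
    intro hmy
    exact hN ⟨y, hmy, hy⟩

lemma Cfg.nonspecial_Z (h : Cfg w) {m : V} (hm : Mv w m) (hs : ¬ Sp w m) :
    2 ≤ (nb w (Zs w) m).card := by
  unfold Sp at hs
  push Not at hs
  obtain ⟨h1, h2⟩ := hs hm
  have e2 := h.pos_card_Mv hm
  have e3 : 2 ≤ (univ.filter (fun v => w m v = 1)).card := by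
    have : (2 : ℤ) ≤ ((univ.filter (fun v => w m v = 1)).card : ℤ) := by linarith
    exact_mod_cast this
  refine le_trans e3 (Finset.card_le_card ?_)
  intro y hy
  simp only [Finset.mem_filter, Finset.mem_univ, true_and] at hy
  refine mem_nb.2 ⟨?_, by rw [hy]; norm_num⟩
  simp only [Zs, Finset.mem_filter, Finset.mem_univ, true_and]
  intro hmy
  exact h1 y hmy hy

lemma Cfg.pointwise (h : Cfg w) {c : V} (hc : c ∈ Zs w) :
    (nb w (MVs w) c).card + (nb w (SPs w) c).card + (nb w (Bs w) c).card ≤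
      3 + (if c ∈ Bs w then 1 else 0) := by
  have hc' : ¬ Mv w c := by simpa [Zs] using hc
  have hpos : ∀ m, w c m ≠ 0 → w c m = 1 := fun m hm => pos_of_not_Mv h hc' hm
  have hji : (nb w (SPs w) c).card ≤ (nb w (MVs w) c).card := by
    apply Finset.card_le_card
    intro m hm
    rw [mem_nb] at hm ⊢
    refine ⟨?_, hm.2⟩
    have := hm.1
    simp only [SPs, MVs, Finset.mem_filter, Finset.mem_univ, true_and] at this ⊢
    exact this.1
  have hib : (nb w (MVs w) c).card + (nb w (Bs w) c).card ≤ 3 := by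
    rw [← Finset.card_union_of_disjoint]
    · refine le_trans (Finset.card_le_card ?_) (h.deg c)
      intro m hm
      simp only [Finset.mem_union, mem_nb, Finset.mem_filter, Finset.mem_univ, true_and] at hm ⊢
      rcases hm with hm | hm <;> exact hm.2
    · rw [Finset.disjoint_left]
      intro m hm hm'
      rw [mem_nb] at hm hm'
      have h1 := hm.1
      have h2 := hm'.1
      simp only [MVs, Bs, Finset.mem_filter, Finset.mem_univ, true_and] at h1 h2
      exact h2.1 h1
  -- if there is a special neighbour then there are at most two ends of negative edges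
  have hi2 : 1 ≤ (nb w (SPs w) c).card → (nb w (MVs w) c).card ≤ 2 := by
    intro hj
    obtain ⟨s, hs⟩ := Finset.card_pos.1 hj
    rw [mem_nb] at hs
    have hsS : Sp w s := by simpa [SPs] using hs.1
    by_contra hcon
    push Not at hcon
    have hsm : s ∈ nb w (MVs w) c := by
      rw [mem_nb]; exact ⟨by simpa [MVs] using hsS.1, hs.2⟩
    have h2 : 1 < ((nb w (MVs w) c).erase s).card := by
      rw [Finset.card_erase_of_mem hsm]; omega
    obtain ⟨x, hx, y, hy, hxy⟩ := Finset.one_lt_card.1 h2
    rw [Finset.mem_erase, mem_nb] at hx hy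
    have hx1 : Mv w x := by simpa [MVs] using hx.2.1
    have hy1 : Mv w y := by simpa [MVs] using hy.2.1
    exact h.rule3 hsS hx1 hy1 (hpos s hs.2) (hpos x hx.2.2) (hpos y hy.2.2) hx.1.symm hy.1.symm
      hxy
  -- if there is a bad neighbour then there is at most one end of a negative edge
  have hb1 : 1 ≤ (nb w (Bs w) c).card → (nb w (MVs w) c).card ≤ 1 := by
    intro hj
    obtain ⟨a, ha⟩ := Finset.card_pos.1 hj
    rw [mem_nb] at ha
    obtain ⟨v, u, x, z, B⟩ := h.bad_of ha.1 hc' ha.2
    rw [Finset.card_le_one]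
    intro p hp q hq
    rw [mem_nb] at hp hq
    exact B.third h (by simpa [MVs] using hp.1) (by simpa [MVs] using hq.1) (hpos p hp.2)
      (hpos q hq.2)
  by_cases hcB : c ∈ Bs w
  · rw [if_pos hcB]
    have hcB' := hcB
    simp only [Bs, Finset.mem_filter, Finset.mem_univ, true_and] at hcB'
    obtain ⟨_, v, x, hvx, hv, hx, hcv, hcx⟩ := hcB'
    have h1 : 1 < (nb w (MVs w) c).card := by
      rw [Finset.one_lt_card]
      exact ⟨v, mem_nb.2 ⟨by simpa [MVs] using hv.1, by rw [hcv]; norm_num⟩, x,
        mem_nb.2 ⟨by simpa [MVs] using hx.1, by rw [hcx]; norm_num⟩, hvx⟩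
    have h2 : 1 ≤ (nb w (SPs w) c).card := by
      apply Finset.card_pos.2
      exact ⟨v, mem_nb.2 ⟨by simpa [SPs] using hv, by rw [hcv]; norm_num⟩⟩
    have h3 := hi2 h2
    have h4 : (nb w (Bs w) c).card = 0 := by
      by_contra h0
      have := hb1 (Nat.pos_of_ne_zero h0)
      omega
    omega
  · rw [if_neg hcB]
    have hj1 : (nb w (SPs w) c).card ≤ 1 := by
      rw [Finset.card_le_one]
      intro v hv x hx
      by_contra hvx
      rw [mem_nb] at hv hx
      apply hcB
      simp only [Bs, Finset.mem_filter, Finset.mem_univ, true_and]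
      exact ⟨hc', v, x, hvx, by simpa [SPs] using hv.1, by simpa [SPs] using hx.1,
        hpos v hv.2, hpos x hx.2⟩
    have hbb : 1 ≤ (nb w (SPs w) c).card → (nb w (Bs w) c).card ≤ 1 := by
      intro hj
      obtain ⟨s, hs⟩ := Finset.card_pos.1 hj
      rw [mem_nb] at hs
      rw [Finset.card_le_one]
      intro a ha b hb
      rw [mem_nb] at ha hb
      obtain ⟨v, u, x, z, B1⟩ := h.bad_of ha.1 hc' ha.2
      obtain ⟨v', u', x', z', B2⟩ := h.bad_of hb.1 hc' hb.2
      exact h.one_bad B1 B2 (by simpa [SPs] using hs.1) (hpos s hs.2)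
    by_cases hj : (nb w (SPs w) c).card = 0
    · omega
    · have hj' : 1 ≤ (nb w (SPs w) c).card := Nat.pos_of_ne_zero hj
      have h1 := hi2 hj'
      have h2 := hbb hj'
      by_cases hb : (nb w (Bs w) c).card = 0
      · omega
      · have := hb1 (Nat.pos_of_ne_zero hb)
        omega

lemma double_count (hs : ∀ u v, w u v = w v u) (S T : Finset V) :
    ∑ z ∈ S, (nb w T z).card = ∑ m ∈ T, (nb w S m).card := by
  have := Finset.sum_card_bipartiteAbove_eq_sum_card_bipartiteBelow (s := S) (t := T)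
    (fun z m => w z m ≠ 0)
  unfold Finset.bipartiteAbove Finset.bipartiteBelow at this
  unfold nb
  rw [this]
  apply Finset.sum_congr rfl
  intro m _
  congr 1
  ext z
  simp only [Finset.mem_filter]
  rw [hs z m]

/-- At most three fifths of the vertices are ends of negative edges. -/
theorem Cfg.main (h : Cfg w) : 5 * (MVs w).card ≤ 3 * Fintype.card V := by
  have hBZ : Bs w ⊆ Zs w := by
    intro a ha
    simp only [Bs, Zs, Finset.mem_filter, Finset.mem_univ, true_and] at ha ⊢
    exact ha.1
  have hSM : SPs w ⊆ MVs w := by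
    intro a ha
    simp only [SPs, MVs, Finset.mem_filter, Finset.mem_univ, true_and] at ha ⊢
    exact ha.1
  have h1 : ∑ z ∈ Zs w, ((nb w (MVs w) z).card + (nb w (SPs w) z).card +
      (nb w (Bs w) z).card) ≤ ∑ z ∈ Zs w, (3 + (if z ∈ Bs w then 1 else 0)) :=
    Finset.sum_le_sum (fun z hz => h.pointwise hz)
  have h2 : ∑ z ∈ Zs w, (3 + (if z ∈ Bs w then 1 else 0)) = 3 * (Zs w).card + (Bs w).card := by
    rw [Finset.sum_add_distrib, Finset.sum_const, smul_eq_mul, ← Finset.card_filter]
    have : (Zs w).filter (fun z => z ∈ Bs w) = Bs w := by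
      ext z
      simp only [Finset.mem_filter]
      exact ⟨fun hz => hz.2, fun hz => ⟨hBZ hz, hz⟩⟩
    rw [this]
    ring
  rw [h2, Finset.sum_add_distrib, Finset.sum_add_distrib, double_count h.symm (Zs w) (MVs w),
    double_count h.symm (Zs w) (SPs w), double_count h.symm (Zs w) (Bs w)] at h1
  have h3 : (Bs w).card ≤ ∑ a ∈ Bs w, (nb w (Zs w) a).card := by
    rw [Finset.card_eq_sum_ones]
    apply Finset.sum_le_sum
    intro a ha
    exact Finset.card_pos.2 (h.bad_third ha)
  have h4 : 2 * (MVs w).card ≤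
      ∑ m ∈ MVs w, (nb w (Zs w) m).card + ∑ m ∈ SPs w, (nb w (Zs w) m).card := by
    have e1 : ∑ m ∈ SPs w, (nb w (Zs w) m).card =
        ∑ m ∈ MVs w, (if m ∈ SPs w then (nb w (Zs w) m).card else 0) := by
      rw [← Finset.sum_filter]
      apply Finset.sum_congr
      · ext m
        simp only [Finset.mem_filter]
        exact ⟨fun hz => ⟨hSM hz, hz⟩, fun hz => hz.2⟩
      · intro _ _; rfl
    rw [e1, ← Finset.sum_add_distrib, mul_comm, ← smul_eq_mul, ← Finset.sum_const]
    apply Finset.sum_le_sum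
    intro m hm
    have hm' : Mv w m := by simpa [MVs] using hm
    by_cases hs : m ∈ SPs w
    · rw [if_pos hs]
      have := h.special_Z hm'
      omega
    · rw [if_neg hs]
      have := h.nonspecial_Z hm' (by simpa [SPs] using hs)
      omega
  have h5 : (MVs w).card + (Zs w).card = Fintype.card V := by
    unfold MVs Zs
    rw [Finset.card_filter_add_card_filter_not]
    exact Finset.card_univ
  omega

end Pool.Agent.H28.Fr
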